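import Pool.Agent.MP_187b32_an.Pos.Main
import Pool.Agent.MP_187b32_an.C3.Main

/-! Positivity module, unconditional form. -/

namespace Pool.Agent.MP_187b32_an.Pos

theorem posStmt : PosStmt := pos_of C3.c3

end Pool.Agent.MP_187b32_an.Pos
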