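import Pool.Agent.MP_187b32_an.Calc.Torus

/-!
Positivity module, part 1: functions of `(s, x, V)` with a polynomial bound in `V`, integrals in
`V` and over the torus, and the scalar comparison lemma.
-/

set_option autoImplicit false

open MeasureTheory Pool.Agent.Boltz Filter Topology Set

noncomputable section

namespace Pool.Agent.MP_187b32_an.Pos

/-- Jointly continuous, bounded by a multiple of `(1 + |V|)^m` for `s` in `I`. -/
structure Gr (m : ℤ) (I : Set ℝ) (w : ℝ → E3 → E3 → ℝ) : Prop where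
  cont : Continuous fun q : ℝ × E3 × E3 => w q.1 q.2.1 q.2.2
  bd : ∃ A : ℝ, 0 ≤ A ∧ ∀ s ∈ I, ∀ x V, |w s x V| ≤ A * (1 + ‖V‖) ^ m

variable {m m' : ℤ} {I : Set ℝ} {w w' : ℝ → E3 → E3 → ℝ}

lemma one_le_wt (V : E3) : (1 : ℝ) ≤ 1 + ‖V‖ := by linarith [norm_nonneg V]

lemma wt_pos (V : E3) : (0 : ℝ) < 1 + ‖V‖ := by positivity

lemma Gr.mono (h : Gr m I w) (hm : m ≤ m') : Gr m' I w := by
  obtain ⟨A, hA, hb⟩ := h.bd
  exact ⟨h.cont, A, hA, fun s hs x V => (hb s hs x V).trans
    (mul_le_mul_of_nonneg_left (zpow_le_zpow_right₀ (one_le_wt V) hm) hA)⟩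

lemma Gr.add (h : Gr m I w) (h' : Gr m I w') : Gr m I fun s x V => w s x V + w' s x V := by
  obtain ⟨A, hA, hb⟩ := h.bd
  obtain ⟨A', hA', hb'⟩ := h'.bd
  refine ⟨h.cont.add h'.cont, A + A', by positivity, fun s hs x V => ?_⟩
  rw [add_mul]
  exact (abs_add_le _ _).trans (add_le_add (hb s hs x V) (hb' s hs x V))

lemma Gr.mul (h : Gr m I w) (h' : Gr m' I w') :
    Gr (m + m') I fun s x V => w s x V * w' s x V := by
  obtain ⟨A, hA, hb⟩ := h.bd
  obtain ⟨A', hA', hb'⟩ := h'.bd
  refine ⟨h.cont.mul h'.cont, A * A', by positivity, fun s hs x V => ?_⟩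
  rw [abs_mul, zpow_add₀ (wt_pos V).ne', mul_mul_mul_comm]
  exact mul_le_mul (hb s hs x V) (hb' s hs x V) (abs_nonneg _)
    (mul_nonneg hA (zpow_pos (wt_pos V) _).le)

lemma Gr.mul' {k : ℤ} (h : Gr m I w) (h' : Gr m' I w') (hk : m + m' ≤ k) :
    Gr k I fun s x V => w s x V * w' s x V := (h.mul h').mono hk

lemma gr_const (c : ℝ) : Gr 0 I fun _ _ _ => c :=
  ⟨continuous_const, |c|, abs_nonneg c, fun _ _ _ _ => by simp⟩

lemma Gr.const_mul (h : Gr m I w) (c : ℝ) : Gr m I fun s x V => c * w s x V :=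
  (gr_const c).mul' h (by simp)

lemma Gr.sum {ι : Type*} (S : Finset ι) {f : ι → ℝ → E3 → E3 → ℝ} (h : ∀ i, Gr m I (f i)) :
    Gr m I fun s x V => ∑ i ∈ S, f i s x V := by
  classical
  induction S using Finset.induction_on with
  | empty => exact ⟨by simpa using continuous_const, 0, le_rfl, fun _ _ _ _ => by simp⟩
  | insert j S hj ih =>
    simp only [Finset.sum_insert hj]
    exact (h j).add ih

lemma gr_coord (i : Fin 3) : Gr 1 I fun _ _ V => V i := by
  refine ⟨by fun_prop, 1, zero_le_one, fun _ _ _ V => ?_⟩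
  have := PiLp.norm_apply_le V i
  rw [Real.norm_eq_abs] at this
  simp only [zpow_one, one_mul]
  linarith

lemma gr_coef {a : ℝ → E3 → ℝ} (hc : Continuous fun p : ℝ × E3 => a p.1 p.2)
    (hp : ∀ s, Per (a s)) (hI : IsCompact I) : Gr 0 I fun s x _ => a s x := by
  obtain ⟨C, hC, hb⟩ := exists_bound_of_per hc hp hI
  exact ⟨hc.comp (f := fun q : ℝ × E3 × E3 => (q.1, q.2.1)) (by fun_prop), C, hC.le,
    fun s hs x V => by simpa using hb s hs x⟩

lemma Gr.cont_V (h : Gr m I w) (s : ℝ) (x : E3) : Continuous (w s x) :=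
  h.cont.comp (f := fun V : E3 => (s, x, V)) (by fun_prop)

lemma integrable_wt4 : Integrable fun V : E3 => (1 + ‖V‖) ^ (-4 : ℤ) := by
  have h := integrable_one_add_norm (E := E3) (μ := volume) (r := 4) (by simp; norm_num)
  refine h.congr (Eventually.of_forall fun V => ?_)
  beta_reduce
  rw [← Real.rpow_intCast]
  norm_num

lemma Gr.integrable (h : Gr (-4) I w) {s : ℝ} (hs : s ∈ I) (x : E3) : Integrable (w s x) := by
  obtain ⟨A, -, hb⟩ := h.bd
  exact (integrable_wt4.const_mul A).mono' (h.cont_V s x).aestronglyMeasurable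
    (Eventually.of_forall fun V => hb s hs x V)

lemma Gr.cont_int (h : Gr (-4) I w) : Continuous fun p : I × E3 => ∫ V, w p.1 p.2 V := by
  obtain ⟨A, -, hb⟩ := h.bd
  refine continuous_of_dominated (bound := fun V => A * (1 + ‖V‖) ^ (-4 : ℤ))
    (fun p => (h.cont_V _ _).aestronglyMeasurable)
    (fun p => Eventually.of_forall fun V => hb _ p.1.2 _ V) (integrable_wt4.const_mul A)
    (Eventually.of_forall fun V => ?_)
  exact h.cont.comp (f := fun p : I × E3 => ((p.1 : ℝ), p.2, V)) (by fun_prop)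

lemma Gr.cont_x (h : Gr (-4) I w) {s : ℝ} (hs : s ∈ I) : Continuous fun x => ∫ V, w s x V :=
  h.cont_int.comp (f := fun x : E3 => ((⟨s, hs⟩ : I), x)) (by fun_prop)

lemma Gr.bd_int (h : Gr (-4) I w) : ∃ C, ∀ s ∈ I, ∀ x, ‖∫ V, w s x V‖ ≤ C := by
  obtain ⟨A, -, hb⟩ := h.bd
  exact ⟨_, fun s hs x => norm_integral_le_of_norm_le (integrable_wt4.const_mul A)
    (Eventually.of_forall fun V => hb s hs x V)⟩

lemma Gr.contOn_tint (h : Gr (-4) I w) :
    ContinuousOn (fun s => tint fun x => ∫ V, w s x V) I := by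
  rw [continuousOn_iff_continuous_domRestrict]
  exact continuous_tint (T := I) (φ := fun s x => ∫ V, w s x V) h.cont_int

/-- Derivative under the `V` integral along a curve of parameters. -/
lemma hasDerivAt_int (h : Gr (-4) I w) (h' : Gr (-4) I w') {a : ℝ → ℝ} {y : ℝ → E3} {U : Set ℝ}
    {t0 : ℝ} (hU : U ∈ 𝓝 t0) (ha : ∀ t ∈ U, a t ∈ I)
    (hd : ∀ t ∈ U, ∀ V, HasDerivAt (fun τ => w (a τ) (y τ) V) (w' (a t) (y t) V) t) :
    HasDerivAt (fun τ => ∫ V, w (a τ) (y τ) V) (∫ V, w' (a t0) (y t0) V) t0 := by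
  obtain ⟨A, -, hb⟩ := h'.bd
  exact (hasDerivAt_integral_of_dominated_loc_of_deriv_le (μ := volume)
    (F := fun τ V => w (a τ) (y τ) V) (F' := fun τ V => w' (a τ) (y τ) V)
    (bound := fun V => A * (1 + ‖V‖) ^ (-4 : ℤ)) hU
    (Eventually.of_forall fun τ => (h.cont_V _ _).aestronglyMeasurable)
    (h.integrable (ha t0 (mem_of_mem_nhds hU)) _) (h'.cont_V _ _).aestronglyMeasurable
    (Eventually.of_forall fun V t ht => hb _ (ha t ht) _ V) (integrable_wt4.const_mul A)
    (Eventually.of_forall fun V t ht => hd t ht V)).2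

/-- Time derivative of the double integral. -/
lemma hasDerivAt_tint_int (h : Gr (-4) I w) (h' : Gr (-4) I w') {s : ℝ} (hs : I ∈ 𝓝 s)
    (hd : ∀ t x V, HasDerivAt (fun τ => w τ x V) (w' t x V) t) :
    HasDerivAt (fun τ => tint fun x => ∫ V, w τ x V) (tint fun x => ∫ V, w' s x V) s := by
  obtain ⟨C, hC⟩ := h'.bd_int
  have hs0 : s ∈ I := mem_of_mem_nhds hs
  have hI : interior I ∈ 𝓝 s := interior_mem_nhds.2 hs
  refine (hasDerivAt_integral_of_dominated_loc_of_deriv_le (μ := volume.restrict (cube 0 1))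
    (F := fun τ x => ∫ V, w τ x V) (F' := fun τ x => ∫ V, w' τ x V) (bound := fun _ => C) hI
    ?_ (integrableOn_tint (h.cont_x hs0)) (h'.cont_x hs0).aestronglyMeasurable
    (Eventually.of_forall fun x t ht => hC t (interior_subset ht) x)
    (integrableOn_tint continuous_const) (Eventually.of_forall fun x t ht => ?_)).2
  · filter_upwards [hs] with t ht
    exact (h.cont_x ht).aestronglyMeasurable
  · exact hasDerivAt_int h h' (a := fun τ => τ) (y := fun _ => x) (mem_interior_iff_mem_nhds.1 ht)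
      (fun _ hτ => hτ) fun τ _ V => hd τ x V

/-- A space derivative integrates to zero. -/
lemma tint_int_eq_zero (h : Gr (-4) I w) (h' : Gr (-4) I w') {s : ℝ} (hs : s ∈ I) {z : E3}
    (hp : ∀ V, Per fun x => w s x V)
    (hd : ∀ x V (t : ℝ), HasDerivAt (fun τ : ℝ => w s (x + τ • z) V) (w' s (x + t • z) V) t) :
    (tint fun x => ∫ V, w' s x V) = 0 := by
  refine tint_deriv_eq_zero (φ := fun x => ∫ V, w s x V) (z := z) (fun i x => ?_) (h.cont_x hs)
    (h'.cont_x hs) fun x => ?_
  · exact integral_congr_ae (Eventually.of_forall fun V => hp V i x)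
  · have := hasDerivAt_int h h' (a := fun _ => s) (y := fun τ => x + τ • z) (t0 := 0) univ_mem
      (fun _ _ => hs) fun τ _ V => hd x V τ
    simpa using this

/-- A velocity derivative integrates to zero. -/
lemma int_eq_zero (h : Gr (-4) I w) (h' : Gr (-4) I w') {s : ℝ} (hs : s ∈ I) (x : E3) {z : E3}
    (hd : ∀ V, HasDerivAt (fun τ : ℝ => w s x (V + τ • z)) (w' s x V) 0) :
    ∫ V, w' s x V = 0 := by
  have := integral_bilinear_hasLineDerivAt_right_eq_neg_left_of_integrable (μ := volume)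
    (f := fun _ : E3 => (1 : ℝ)) (f' := fun _ => 0) (g := w s x) (g' := w' s x) (v := z)
    (B := ContinuousLinearMap.mul ℝ ℝ) (by simp) (by simpa using h'.integrable hs x)
    (by simpa using h.integrable hs x) (fun V _ => hasDerivAt_const _ _) (fun V _ => hd V)
  simpa using this

/-- The square of the negative part is differentiable. -/
lemma hasDerivAt_negsq (t : ℝ) :
    HasDerivAt (fun u : ℝ => max (-u) 0 ^ 2) (-2 * max (-t) 0) t := by
  refine hasDerivAt_of_hasDerivAt_of_ne' (g := fun u : ℝ => -2 * max (-u) 0) (x := 0)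
    (fun y hy => ?_) (by fun_prop) (by fun_prop) t
  rcases lt_or_gt_of_ne hy with h | h
  · have h1 : HasDerivAt (fun u : ℝ => u ^ 2) (-2 * max (-y) 0) y := by
      rw [max_eq_left (by linarith)]
      simpa using hasDerivAt_pow 2 y
    refine h1.congr_of_eventuallyEq ?_
    filter_upwards [gt_mem_nhds h] with u hu
    rw [max_eq_left (by linarith), neg_sq]
  · have h1 : HasDerivAt (fun _ : ℝ => (0 : ℝ)) (-2 * max (-y) 0) y := by
      rw [max_eq_right (by linarith)]
      simpa using hasDerivAt_const y (0 : ℝ)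
    refine h1.congr_of_eventuallyEq ?_
    filter_upwards [lt_mem_nhds h] with u hu
    rw [max_eq_right (by linarith)]
    simp

/-- Scalar comparison lemma. -/
lemma le_zero_of_deriv_le {e e' : ℝ → ℝ} {a b C : ℝ} (hab : a ≤ b) (hc : ContinuousOn e (Icc a b))
    (hd : ∀ s ∈ Ioo a b, HasDerivAt e (e' s) s) (hl : ∀ s ∈ Ioo a b, e' s ≤ C * e s)
    (h0 : e a = 0) : e b ≤ 0 := by
  have key := antitoneOn_of_hasDerivWithinAt_nonpos (convex_Icc a b)
    (f := fun s => Real.exp (-C * s) * e s)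
    (f' := fun s => Real.exp (-C * s) * (-C * 1) * e s + Real.exp (-C * s) * e' s)
    (ContinuousOn.mul (by fun_prop) hc) (fun s hs => ?_) (fun s hs => ?_)
  · have := key (left_mem_Icc.2 hab) (right_mem_Icc.2 hab) hab
    simp only [h0, mul_zero] at this
    exact nonpos_of_mul_nonpos_right this (Real.exp_pos _)
  · rw [interior_Icc] at hs
    exact ((((hasDerivAt_id s).const_mul (-C)).exp).mul (hd s hs)).hasDerivWithinAt
  · rw [interior_Icc] at hs
    have := mul_le_mul_of_nonneg_left (hl s hs) (Real.exp_pos (-C * s)).le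
    nlinarith

end Pool.Agent.MP_187b32_an.Pos
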