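import Pool.Agent.MP_187b32_an.Pos.Gr
import Pool.Agent.MP_187b32_an.Spec.Bg
import Pool.Agent.MP_187b32_an.Coll.Tri

/-!
Positivity module, part 2: the energy estimate for the negative part, and `PosStmt`.
-/

set_option autoImplicit false

open MeasureTheory Pool.Agent.Boltz Filter Topology Set

noncomputable section

namespace Pool.Agent.MP_187b32_an.Pos

/-- Directional derivative of `g` in all variables. -/
def Dg (g : ℝ → E3 → E3 → ℝ) (z : ℝ × E3 × E3) (s : ℝ) (x V : E3) : ℝ :=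
  fderiv ℝ (fun q : ℝ × E3 × E3 => g q.1 q.2.1 q.2.2) (s, x, V) z

/-- Negative part of `sqM + g`. -/
def nn (g : ℝ → E3 → E3 → ℝ) (s : ℝ) (x V : E3) : ℝ := max (-(sqM V + g s x V)) 0

/-- Velocity derivative of `sqM + g`. -/
def dv (g : ℝ → E3 → E3 → ℝ) (j : Fin 3) (s : ℝ) (x V : E3) : ℝ :=
  -1 / 2 * (sqM V * V j) + Dg g (0, 0, ev j) s x V

/-- Space component of the vector field. -/
def aa (F : ℝ → Fld) (i : Fin 3) (s : ℝ) (x V : E3) : ℝ := (F s).u i x + (F s).c x * V i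

/-- Its space derivative. -/
def da (F : ℝ → Fld) (i : Fin 3) (s : ℝ) (x V : E3) : ℝ :=
  dX i ((F s).u i) x + dX i (F s).c x * V i

/-- Velocity derivative of `bj`. -/
def db (F : ℝ → Fld) (j : Fin 3) (s : ℝ) (x V : E3) : ℝ :=
  ∑ i, (F s).b1 i j x * ev j i
    + ∑ i, ((F s).b2 i x * ev j i * V j + (F s).b2 i x * V i * ev j j)

/-- Time derivative of the square of the negative part. -/
def TT (g : ℝ → E3 → E3 → ℝ) (s : ℝ) (x V : E3) : ℝ :=
  -2 * (nn g s x V * Dg g (1, 0, 0) s x V)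

/-- Space derivative of the space flux. -/
def AA (F : ℝ → Fld) (g : ℝ → E3 → E3 → ℝ) (i : Fin 3) (s : ℝ) (x V : E3) : ℝ :=
  da F i s x V * (nn g s x V * nn g s x V)
    + aa F i s x V * (-2 * (nn g s x V * Dg g (0, ev i, 0) s x V))

/-- Velocity derivative of the velocity flux. -/
def BB (F : ℝ → Fld) (g : ℝ → E3 → E3 → ℝ) (j : Fin 3) (s : ℝ) (x V : E3) : ℝ :=
  db F j s x V * (nn g s x V * nn g s x V)
    + (F s).bj x V j * (-2 * (nn g s x V * dv g j s x V))

/-- The cubic weight. -/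
def WW (F : ℝ → Fld) (s : ℝ) (x V : E3) : ℝ :=
  ∑ i, da F i s x V + ∑ j, (db F j s x V + (F s).bj x V j * V j)

variable {F : ℝ → Fld} {k : ℝ → E3 → ℝ} {s0 s1 ε : ℝ} {p : ℕ} {g : ℝ → E3 → E3 → ℝ}

section Deriv

variable (hL : Lim F k s0 ε p g)
include hL

lemma hasF (q : ℝ × E3 × E3) : HasFDerivAt (fun q : ℝ × E3 × E3 => g q.1 q.2.1 q.2.2)
    (fderiv ℝ (fun q : ℝ × E3 × E3 => g q.1 q.2.1 q.2.2) q) q :=
  (hL.c1.differentiable one_ne_zero q).hasFDerivAt

lemma hd_s (t : ℝ) (x V : E3) : HasDerivAt (fun τ => g τ x V) (Dg g (1, 0, 0) t x V) t :=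
  (hasF hL (t, x, V)).comp_hasDerivAt (f := fun τ : ℝ => (τ, x, V)) t
    ((hasDerivAt_id t).prodMk ((hasDerivAt_const t x).prodMk (hasDerivAt_const t V)))

omit hL in
lemma hd_line (x z : E3) (t : ℝ) : HasDerivAt (fun τ : ℝ => x + τ • z) z t := by
  simpa using ((hasDerivAt_id t).smul_const z).const_add x

lemma hd_x (s : ℝ) (x z V : E3) (t : ℝ) :
    HasDerivAt (fun τ : ℝ => g s (x + τ • z) V) (Dg g (0, z, 0) s (x + t • z) V) t :=
  (hasF hL (s, x + t • z, V)).comp_hasDerivAt (f := fun τ : ℝ => (s, x + τ • z, V)) t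
    ((hasDerivAt_const t s).prodMk ((hd_line x z t).prodMk (hasDerivAt_const t V)))

lemma hd_V (s : ℝ) (x z V : E3) (t : ℝ) :
    HasDerivAt (fun τ : ℝ => g s x (V + τ • z)) (Dg g (0, 0, z) s x (V + t • z)) t :=
  (hasF hL (s, x, V + t • z)).comp_hasDerivAt (f := fun τ : ℝ => (s, x, V + τ • z)) t
    ((hasDerivAt_const t s).prodMk ((hasDerivAt_const t x).prodMk (hd_line V z t)))

lemma fd_x (s : ℝ) (x z V : E3) : fderiv ℝ (fun y => g s y V) x z = Dg g (0, z, 0) s x V := by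
  have h1 : DifferentiableAt ℝ (fun y => g s y V) x :=
    (hasF hL (s, x, V)).differentiableAt.comp (f := fun y : E3 => (s, y, V)) x (by fun_prop)
  have h2 := hd_x hL s x z V 0
  rw [zero_smul, add_zero] at h2
  exact (h1.hasFDerivAt.hasLineDerivAt z).unique h2

lemma hd_G (s : ℝ) (x V : E3) (j : Fin 3) :
    HasDerivAt (fun τ : ℝ => sqM (V + τ • ev j) + g s x (V + τ • ev j)) (dv g j s x V) 0 := by
  have h2 := hd_V hL s x (ev j) V 0
  rw [zero_smul, add_zero] at h2
  have h1 : HasDerivAt (fun τ : ℝ => sqM (V + τ • ev j)) _ 0 :=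
    (hasFDerivAt_sqM V).hasLineDerivAt (ev j)
  refine (h1.add h2).congr_deriv ?_
  simp only [dv, smul_apply, innerSL_apply_apply, inner_ev, smul_eq_mul]
  ring

lemma fd_V (s : ℝ) (x V : E3) (j : Fin 3) :
    fderiv ℝ (fun W => sqM W + g s x W) V (ev j) = dv g j s x V := by
  have h1 : DifferentiableAt ℝ (fun W => sqM W + g s x W) V :=
    (hasFDerivAt_sqM V).differentiableAt.add
      ((hasF hL (s, x, V)).differentiableAt.comp (f := fun y : E3 => (s, x, y)) V (by fun_prop))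
  exact (h1.hasFDerivAt.hasLineDerivAt (ev j)).unique (hd_G hL s x V j)

omit hL in
lemma hd_sq {G : ℝ → ℝ} {G' t : ℝ} (h : HasDerivAt G G' t) :
    HasDerivAt (fun τ => max (-G τ) 0 * max (-G τ) 0) (-2 * (max (-G t) 0 * G')) t := by
  have := (hasDerivAt_negsq (G t)).comp t h
  simp only [sq, Function.comp_def] at this
  exact this.congr_deriv (by ring)

lemma hd_TT (t : ℝ) (x V : E3) :
    HasDerivAt (fun τ => nn g τ x V * nn g τ x V) (TT g t x V) t :=
  hd_sq ((hd_s hL t x V).const_add (sqM V))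

lemma hd_AA (hF : FldC F) (i : Fin 3) (s : ℝ) (x V : E3) (t : ℝ) :
    HasDerivAt (fun τ : ℝ => aa F i s (x + τ • ev i) V
      * (nn g s (x + τ • ev i) V * nn g s (x + τ • ev i) V)) (AA F g i s (x + t • ev i) V) t :=
  ((((hF.u i).dif s).line i x t).hasDerivAt.add
    (((hF.c.dif s).line i x t).hasDerivAt.mul_const (V i))).mul
    (hd_sq ((hd_x hL s x (ev i) V t).const_add (sqM V)))

omit hL in
lemma hd_coord (V z : E3) (i : Fin 3) : HasDerivAt (fun τ : ℝ => (V + τ • z) i) (z i) 0 := by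
  simpa using ((hasDerivAt_id (0 : ℝ)).mul_const (z i)).const_add (V i)

omit hL in
lemma hd_bj (j : Fin 3) (s : ℝ) (x V : E3) :
    HasDerivAt (fun τ : ℝ => (F s).bj x (V + τ • ev j) j) (db F j s x V) 0 := by
  have h1 := HasDerivAt.fun_sum (u := Finset.univ) fun i _ =>
    (hd_coord V (ev j) i).const_mul ((F s).b1 i j x)
  have h2 := HasDerivAt.fun_sum (u := Finset.univ) fun i _ =>
    ((hd_coord V (ev j) i).const_mul ((F s).b2 i x)).mul (hd_coord V (ev j) j)
  have h3 := (h1.const_add ((F s).b0 j x)).add h2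
  simp only [zero_smul, add_zero] at h3
  exact h3

lemma hd_BB (j : Fin 3) (s : ℝ) (x V : E3) :
    HasDerivAt (fun τ : ℝ => (F s).bj x (V + τ • ev j) j
      * (nn g s x (V + τ • ev j) * nn g s x (V + τ • ev j))) (BB F g j s x V) 0 := by
  have h := (hd_bj (F := F) j s x V).mul (hd_sq (hd_G hL s x V j))
  simp only [zero_smul, add_zero] at h
  exact h

/-- The equation multiplied by `-2 n`. -/
lemma pointwise {s : ℝ} (hs : s0 ≤ s) (x V : E3) :
    TT g s x V + ∑ i, AA F g i s x V + ∑ j, BB F g j s x V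
      = WW F s x V * (nn g s x V * nn g s x V) - 2 * k s x *
        (Coll.Gam (fun W => sqM W + g s x W) (fun W => sqM W + g s x W) V * nn g s x V) := by
  have e := hL.eqn s hs x V
  simp only [(hd_s hL s x V).deriv, fd_x hL, fd_V hL] at e
  have hn : nn g s x V * (sqM V + g s x V) = -(nn g s x V * nn g s x V) := by
    unfold nn
    rcases le_total (-(sqM V + g s x V)) 0 with h | h
    · rw [max_eq_right h]; ring
    · rw [max_eq_left h]; ring
  simp only [TT, AA, BB, WW, aa, Fin.sum_univ_three] at e ⊢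
  linear_combination (-2 * nn g s x V) * e - ((F s).bj x V 0 * V 0 + (F s).bj x V 1 * V 1
    + (F s).bj x V 2 * V 2) * hn

lemma gr_Dg (z : ℝ × E3 × E3) : Gr 0 (Icc s0 s1) (Dg g z) := by
  obtain ⟨K, hK⟩ := hL.dec s1
  refine ⟨(hL.c1.continuous_fderiv one_ne_zero).clm_apply continuous_const, |K| * ‖z‖,
    by positivity, fun s hs x V => ?_⟩
  rw [zpow_zero, mul_one]
  refine ((fderiv ℝ (fun q : ℝ × E3 × E3 => g q.1 q.2.1 q.2.2) (s, x, V)).le_opNorm z).trans
    (mul_le_mul_of_nonneg_right ?_ (norm_nonneg z))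
  exact ((le_mul_of_one_le_left (norm_nonneg _) (Coll.one_le_wt V p)).trans
    (hK s hs x V)).trans (le_abs_self K)

lemma gr_nn : Gr (-p) (Icc s0 s1) (nn g) := by
  refine ⟨(((continuous_sqM.comp (by fun_prop)).add hL.c1.continuous).neg).max continuous_const,
    |ε|, abs_nonneg ε, fun s hs x V => ?_⟩
  have h1 := (hL.nice s hs.1 x).1 V
  have h2 : |nn g s x V| ≤ |g s x V| := by
    rw [nn, abs_of_nonneg (le_max_right _ _)]
    exact max_le (by linarith [sqM_pos V, neg_le_abs (g s x V)]) (abs_nonneg _)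
  rw [zpow_neg, zpow_natCast, ← div_eq_mul_inv, le_div_iff₀ (Coll.wt_pos V p), mul_comm]
  exact ((mul_le_mul_of_nonneg_left h2 (Coll.wt_pos V p).le).trans h1).trans (le_abs_self ε)

lemma gr_dv (j : Fin 3) : Gr 1 (Icc s0 s1) (dv g j) := by
  have h0 : Gr 0 (Icc s0 s1) fun _ _ V => sqM V :=
    ⟨continuous_sqM.comp (by fun_prop), 1, zero_le_one, fun _ _ _ V => by
      simpa [abs_of_pos (sqM_pos V)] using sqM_le_one V⟩
  exact ((h0.mul' (gr_coord j) (by norm_num)).const_mul _).add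
    ((gr_Dg hL _).mono (by norm_num))

end Deriv

section Coef

variable (hF : FldC F) {I : Set ℝ} (hI : IsCompact I)
include hF hI

lemma gr_aa (i : Fin 3) : Gr 1 I (aa F i) :=
  ((gr_coef (hF.u i).cont (fun s => ((hF.reg s).u i).2) hI).mono (by norm_num)).add
    ((gr_coef hF.c.cont (fun s => (hF.reg s).c.2) hI).mul' (gr_coord i) (by norm_num))

lemma gr_da (i : Fin 3) : Gr 1 I (da F i) :=
  ((gr_coef ((hF.u i).dX i).cont (fun s => ((hF.reg s).u i).2.dX i) hI).mono (by norm_num)).add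
    ((gr_coef (hF.c.dX i).cont (fun s => (hF.reg s).c.2.dX i) hI).mul' (gr_coord i) (by norm_num))

lemma gr_b1 (i j : Fin 3) : Gr 0 I fun s x _ => (F s).b1 i j x :=
  gr_coef (hF.b1 i j).cont (fun s => ((hF.reg s).b1 i j).2) hI

lemma gr_b2 (i : Fin 3) : Gr 0 I fun s x _ => (F s).b2 i x :=
  gr_coef (hF.b2 i).cont (fun s => ((hF.reg s).b2 i).2) hI

lemma gr_bj (j : Fin 3) : Gr 2 I fun s x V => (F s).bj x V j :=
  (((gr_coef (hF.b0 j).cont (fun s => ((hF.reg s).b0 j).2) hI).mono (by norm_num)).add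
    (Gr.sum _ fun i => (gr_b1 hF hI i j).mul' (gr_coord i) (by norm_num))).add
    (Gr.sum _ fun i => ((gr_b2 hF hI i).mul (gr_coord i)).mul' (gr_coord j) (by norm_num))

lemma gr_db (j : Fin 3) : Gr 1 I (db F j) :=
  (Gr.sum _ fun i => (gr_b1 hF hI i j).mul' (gr_const _) (by norm_num)).add
    (Gr.sum _ fun i => (((gr_b2 hF hI i).mul (gr_const _)).mul' (gr_coord j) (by norm_num)).add
      (((gr_b2 hF hI i).mul (gr_coord i)).mul' (gr_const _) (by norm_num)))

lemma gr_WW : Gr 3 I (WW F) :=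
  (Gr.sum _ fun i => (gr_da hF hI i).mono (by norm_num)).add
    (Gr.sum _ fun j => ((gr_db hF hI j).mono (by norm_num)).add
      ((gr_bj hF hI j).mul' (gr_coord j) (by norm_num)))

end Coef

section Main

variable (hF : FldC F) (hL : Lim F k s0 ε 11 g)
include hL

lemma gr_QQ : Gr (-22) (Icc s0 s1) fun s x V => nn g s x V * nn g s x V :=
  (gr_nn hL).mul' (gr_nn hL) (by norm_num)

lemma gr_TT : Gr (-4) (Icc s0 s1) (TT g) :=
  ((gr_nn hL).mul' (gr_Dg hL _) (by norm_num)).const_mul _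

include hF

lemma gr_AA (i : Fin 3) : Gr (-4) (Icc s0 s1) (AA F g i) :=
  ((gr_da hF isCompact_Icc i).mul' (gr_QQ hL) (by norm_num)).add
    ((gr_aa hF isCompact_Icc i).mul' (((gr_nn hL).mul (gr_Dg hL _)).const_mul _) (by norm_num))

lemma gr_BB (j : Fin 3) : Gr (-4) (Icc s0 s1) (BB F g j) :=
  ((gr_db hF isCompact_Icc j).mul' (gr_QQ hL) (by norm_num)).add
    ((gr_bj hF isCompact_Icc j).mul' (((gr_nn hL).mul (gr_dv hL j)).const_mul _) (by norm_num))

lemma int_BB {s : ℝ} (hs : s ∈ Icc s0 s1) (x : E3) (j : Fin 3) : ∫ V, BB F g j s x V = 0 :=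
  int_eq_zero ((gr_bj hF isCompact_Icc j).mul' (gr_QQ hL) (by norm_num)) (gr_BB hF hL j) hs x
    (hd_BB hL j s x)

lemma tint_AA {s : ℝ} (hs : s ∈ Icc s0 s1) (i : Fin 3) :
    (tint fun x => ∫ V, AA F g i s x V) = 0 := by
  refine tint_int_eq_zero ((gr_aa hF isCompact_Icc i).mul' (gr_QQ hL) (by norm_num))
    (gr_AA hF hL i) hs (fun V j x => ?_) (hd_AA hL hF i s)
  have h := hL.per s V j x
  simp only [aa, nn, ((hF.reg s).u i).2 j x, (hF.reg s).c.2 j x] at h ⊢
  rw [h]

/-- The equation integrated in the velocity. -/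
lemma int_identity {s : ℝ} (hs : s ∈ Icc s0 s1) (x : E3) (hi : Integrable fun V =>
      Coll.Gam (fun W => sqM W + g s x W) (fun W => sqM W + g s x W) V * nn g s x V) :
    (∫ V, TT g s x V) + ∑ i, ∫ V, AA F g i s x V
      = (∫ V, WW F s x V * (nn g s x V * nn g s x V)) - 2 * k s x * ∫ V,
        Coll.Gam (fun W => sqM W + g s x W) (fun W => sqM W + g s x W) V * nn g s x V := by
  have iT := (gr_TT hL).integrable hs x
  have iA := fun i => (gr_AA hF hL i).integrable hs x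
  have iB := fun j => (gr_BB hF hL j).integrable hs x
  have iW := ((gr_WW hF isCompact_Icc).mul' (gr_QQ hL) (by norm_num)).integrable hs x
  have iA' := integrable_finsetSum Finset.univ fun i _ => iA i
  have iB' := integrable_finsetSum Finset.univ fun j _ => iB j
  rw [← integral_const_mul, ← integral_sub iW (hi.const_mul _)]
  simp only [← pointwise hL hs.1 x]
  have iTA : Integrable fun V => TT g s x V + ∑ i, AA F g i s x V := iT.add iA'
  rw [integral_add iTA iB', integral_add iT iA',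
    integral_finsetSum _ fun i _ => iA i, integral_finsetSum _ fun j _ => iB j]
  simp only [int_BB hF hL hs x, Finset.sum_const_zero, add_zero]

end Main

lemma cube_le {A δ y : ℝ} (hδ : 0 < δ) (hy : 1 ≤ y) : A * y ^ 3 ≤ δ * y ^ 8 + A ^ 2 / (4 * δ) := by
  have h1 : y ^ 6 ≤ y ^ 8 := pow_le_pow_right₀ hy (by norm_num)
  have h2 : A * y ^ 3 ≤ δ * y ^ 6 + A ^ 2 / (4 * δ) := by
    rw [← sub_nonneg, show δ * y ^ 6 + A ^ 2 / (4 * δ) - A * y ^ 3
      = (2 * δ * y ^ 3 - A) ^ 2 / (4 * δ) by field_simp; ring]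
    positivity
  nlinarith

theorem pos_of (h3 : Coll.C3Stmt) : PosStmt := by
  obtain ⟨ε0, hε0, hP⟩ := Coll.pos_ineq h3
  obtain ⟨Cw, hCw, hW⟩ := Coll.wgt_of h3
  refine ⟨ε0, 11, hε0, fun F k s0 g hF hk hkp hk0 hL s1 h01 x1 V1 => ?_⟩
  obtain ⟨A, hA, hb⟩ := (gr_WW hF (isCompact_Icc (a := s0) (b := s1))).bd
  obtain ⟨k1, hk1, hk1'⟩ := exists_bound_of_per hk.cont hkp (isCompact_Icc (a := s0) (b := s1))
  obtain ⟨k0, hk0', hk0''⟩ := exists_lower_bound_of_per hk.cont hkp
    (isCompact_Icc (a := s0) (b := s1)) fun s _ x => hk0 s x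
  have hQ : Gr (-4) (Icc s0 s1) fun s x V => nn g s x V * nn g s x V :=
    (gr_QQ hL).mono (by norm_num)
  have hδ : 0 < k0 / Cw := by positivity
  have key : ∀ s ∈ Icc s0 s1, ∀ x, (∫ V, TT g s x V) + ∑ i, ∫ V, AA F g i s x V
      ≤ (A ^ 2 / (4 * (k0 / Cw)) + 3 * k1) * ∫ V, nn g s x V * nn g s x V := by
    intro s hs x
    obtain ⟨hn, hi, hG⟩ := hP (g s x) (nn g s x) ε0 (hL.nice s hs.1 x) le_rfl rfl
    have hw := hW _ _ hn
    have i8 := Coll.integrable_wt_sq hn 8 (by norm_num)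
    have i0 := Coll.integrable_sq hn
    have hD := Coll.Dis_nonneg (nn g s x)
    have h1 : (∫ V, WW F s x V * (nn g s x V * nn g s x V))
        ≤ k0 / Cw * (∫ V, (1 + ‖V‖) ^ 8 * nn g s x V ^ 2)
          + A ^ 2 / (4 * (k0 / Cw)) * ∫ V, nn g s x V ^ 2 := by
      rw [← integral_const_mul, ← integral_const_mul,
        ← integral_add (i8.const_mul _) (i0.const_mul _)]
      refine integral_mono (((gr_WW hF isCompact_Icc).mul' (gr_QQ hL) (by norm_num)).integrable
        hs x) ((i8.const_mul _).add (i0.const_mul _)) fun V => ?_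
      have h2 := (le_abs_self _).trans (hb s hs x V)
      rw [show (3 : ℤ) = (3 : ℕ) from rfl, zpow_natCast] at h2
      have h4 := mul_le_mul_of_nonneg_right (h2.trans (cube_le hδ (one_le_wt V)))
        (sq_nonneg (nn g s x V))
      beta_reduce
      nlinarith
    have h0 : 0 ≤ ∫ V, nn g s x V ^ 2 := integral_nonneg fun V => sq_nonneg _
    have h5 : k0 / Cw * (∫ V, (1 + ‖V‖) ^ 8 * nn g s x V ^ 2)
        ≤ k0 * (Coll.Dis (nn g s x) + ∫ V, nn g s x V ^ 2) := by
      rw [div_mul_eq_mul_div, div_le_iff₀ hCw, mul_assoc, mul_comm _ Cw]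
      exact mul_le_mul_of_nonneg_left hw hk0'.le
    have h6 := hk0'' s hs x
    have h7 := (le_abs_self _).trans (hk1' s hs x)
    have h8 := mul_le_mul_of_nonneg_left hG (hk0 s x).le
    have h9 := mul_le_mul_of_nonneg_right h6 (add_nonneg hD h0)
    have h10 := mul_le_mul_of_nonneg_right h7 h0
    rw [int_identity hF hL hs x hi]
    simp only [← sq] at h1 ⊢
    change k s x * -∫ V, Coll.Gam (fun W => sqM W + g s x W) (fun W => sqM W + g s x W) V
      * nn g s x V ≤ _ at h8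
    nlinarith
  have hE := le_zero_of_deriv_le (e := fun s => tint fun x => ∫ V, nn g s x V * nn g s x V)
    (e' := fun s => tint fun x => ∫ V, TT g s x V) (C := A ^ 2 / (4 * (k0 / Cw)) + 3 * k1) h01
    hQ.contOn_tint
    (fun s hs => hasDerivAt_tint_int hQ (gr_TT hL) (Icc_mem_nhds hs.1 hs.2) (hd_TT hL))
    (fun s hs => ?_) ?_
  · have hs1 : s1 ∈ Icc s0 s1 := right_mem_Icc.2 h01
    have hnn : ∀ x, 0 ≤ ∫ V, nn g s1 x V * nn g s1 x V :=
      fun x => integral_nonneg fun V => mul_self_nonneg _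
    have h1 := eq_zero_of_tint_eq_zero (ψ := fun x => ∫ V, nn g s1 x V * nn g s1 x V)
      (fun i x => by simp only [nn, hL.per s1 _ i x]) (hQ.cont_x hs1) hnn
      (le_antisymm hE (tint_nonneg hnn)) x1
    have h2 := (integral_eq_zero_iff_of_nonneg (fun V => mul_self_nonneg _)
      (hQ.integrable hs1 x1)).1 h1
    have h4 := congrFun (((hQ.cont_V s1 x1).ae_eq_iff_eq volume continuous_zero).1 h2) V1
    have h5 : nn g s1 x1 V1 = 0 := mul_self_eq_zero.1 h4
    have h6 : -(sqM V1 + g s1 x1 V1) ≤ nn g s1 x1 V1 := le_max_left _ _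
    linarith
  · have hs' : s ∈ Icc s0 s1 := Ioo_subset_Icc_self hs
    have cT := (gr_TT hL).cont_x hs'
    have cA := fun i => (gr_AA hF hL i).cont_x hs'
    have cA' := continuous_finsetSum Finset.univ fun i _ => cA i
    have h1 := tint_mono (cT.fun_add cA') ((hQ.cont_x hs').const_mul _) (key s hs')
    rw [tint_add cT cA', tint_sum _ fun i _ => cA i, tint_const_mul] at h1
    simpa only [tint_AA hF hL hs', Finset.sum_const_zero, add_zero] using h1
  · have h1 : ∀ x V, nn g s0 x V = 0 := fun x V =>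
      max_eq_right (by linarith [hL.init_small x V, neg_le_abs (g s0 x V), sqM_pos V])
    simp [h1]

end Pool.Agent.MP_187b32_an.Pos
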